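import Pool.Agent.Helper58.FLP.BDef

/-!
# Bridge FLP-B7: the restricted Yoneda functor
-/

open CategoryTheory MonoidalCategory CartesianMonoidalCategory Opposite

set_option autoImplicit false

namespace Pool.Agent.Helper45.FLPYD

open FL (SP MpS HoEq Th)
open FLP

noncomputable section

variable {n : ℕ}

/-- The two forms of `filt` on maps agree. -/
lemma ofMx_along {X Y : SP (Th n)} {m : SimplexCategory} (φ : MpS X Y m) :
    ofMx ((toMx φ).along (FLP.tower n)) =
      (FL.filtS φ : MpS (FL.filt X) (FL.filt Y) m) := by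
  have h : (toMx φ).along (FLP.tower n) =
      toMx (FL.filtS φ : MpS (FL.filt X) (FL.filt Y) m) := rfl
  rw [h]
  exact ofMx_toMx _

theorem exists_ydIso (H : CatIff n) (D : SP (FLP.Gn n)) :
    ∃ e : ∀ K : FL.CatN n, (toPSh H (FLP.YD D)).obj K ≅ (FL.YD D).obj K,
      ∀ {K K' : FL.CatN n} {k : SimplexCategoryᵒᵖ} (φ : MpS K.1 K'.1 k.unop)
        (x : ((toPSh H (FLP.YD D)).obj K').obj k),
        (e K).hom.app k ((toPSh H (FLP.YD D)).act φ x) =
          (FL.YD D).act φ ((e K').hom.app k x) := by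
  refine ⟨fun K => (mpIso (FL.filt K.1) D).symm, ?_⟩
  intro K K' k φ x
  have h : ofMx (((toMx φ).along (FLP.tower n)).comp (x : Mx (rs (FLP.tower n) K'.1) D k.unop)) =
      MpS.comp (FL.filtS φ : MpS (FL.filt K.1) (FL.filt K'.1) k.unop)
        (ofMx (x : Mx (rs (FLP.tower n) K'.1) D k.unop)) := by
    rw [ofMx_comp, ofMx_along]
    rfl
  exact h

variable (H : CatIff n) (D D' : SP (FLP.Gn n))

/-- From `FLP` to `FL`. -/
def toM {m : SimplexCategory} (ψ : FLP.PSh.MapS (FLP.YD D) (FLP.YD D') m) :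
    FL.PSh.MapS (FL.YD D) (FL.YD D') m where
  app K k s x := ofMx (ψ.app (ofC H K) (l := k.unop) s (toMx x))
  nat K k l g s x := by
    have h := ψ.nat (ofC H K) g.unop s (toMx x)
    have h2 : ofMx (Mx.res g.unop (ψ.app (ofC H K) (l := k.unop) s (toMx x))) =
      (ofMx (ψ.app (ofC H K) (l := k.unop) s (toMx x))).res g.unop := ofMx_res _ _
    exact (congrArg ofMx h).trans h2
  act {K K'} k s φ x := by
    have h := ψ.act (ofC H K) (ofC H K') s (toMx φ) (toMx x)
    have h2 : ofMx (((toMx φ).along (FLP.tower n)).comp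
        (ψ.app (ofC H K') (l := k.unop) s (toMx x))) =
      MpS.comp (FL.filtS φ : MpS (FL.filt K.1) (FL.filt K'.1) k.unop)
        (ofMx (ψ.app (ofC H K') (l := k.unop) s (toMx x))) := by
      rw [ofMx_comp, ofMx_along]
      rfl
    exact (congrArg ofMx h).trans h2

/-- From `FL` to `FLP`. -/
def fromM {m : SimplexCategory} (ψ : FL.PSh.MapS (FL.YD D) (FL.YD D') m) :
    FLP.PSh.MapS (FLP.YD D) (FLP.YD D') m where
  app C {l} s x := toMx (ψ.app (toC H C) (op l) s (ofMx x))
  nat C {l k} α s x := by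
    have h := ψ.nat (toC H C) (k := op l) (l := op k) α.op s (ofMx x)
    have h2 : ofMx (Mx.res α (x : Mx (rs (FLP.tower n) C.X) D l)) = (ofMx x).res α :=
      ofMx_res _ _
    have h3 := congrArg (fun t : MpS (FL.filt C.X) D k =>
      toMx (ψ.app (toC H C) (op k) (α ≫ s) t)) h2
    exact h3.trans (congrArg toMx h)
  act C C' {l} s φ x := by
    have h := ψ.act (C := toC H C) (C' := toC H C') (k := op l) s (ofMx φ) (ofMx x)
    have h2 : ofMx (((toMx (ofMx φ)).along (FLP.tower n)).comp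
        (x : Mx (rs (FLP.tower n) C'.X) D l)) =
      MpS.comp (FL.filtS (ofMx φ) : MpS (FL.filt C.X) (FL.filt C'.X) l) (ofMx x) := by
      rw [ofMx_comp, ofMx_along]
      rfl
    rw [toMx_ofMx] at h2
    have h3 := (congrArg (fun t : MpS (FL.filt C.X) D l =>
      toMx (ψ.app (toC H C) (op l) s t)) h2).trans (congrArg toMx h)
    refine h3.trans ?_
    show toMx (MpS.comp (FL.filtS (ofMx φ) : MpS (FL.filt C.X) (FL.filt C'.X) l)
          (ψ.app (toC H C') (op l) s (ofMx x))) = _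
    have h4 : toMx (FL.filtS (ofMx φ) : MpS (FL.filt C.X) (FL.filt C'.X) l) =
        φ.along (FLP.tower n) := by
      have h5 : toMx (FL.filtS (ofMx φ) : MpS (FL.filt C.X) (FL.filt C'.X) l) =
        (toMx (ofMx φ)).along (FLP.tower n) := rfl
      rw [h5, toMx_ofMx]
    rw [toMx_comp, h4]
    rfl

lemma toM_fromM {m : SimplexCategory} (ψ : FL.PSh.MapS (FL.YD D) (FL.YD D') m) :
    toM H D D' (fromM H D D' ψ) = ψ := by
  refine FL.PSh.MapS.ext ?_
  funext K k s x
  show ofMx (toMx (ψ.app K k s (ofMx (toMx x)))) = ψ.app K k s x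
  rw [ofMx_toMx, ofMx_toMx]

lemma fromM_toM {m : SimplexCategory} (ψ : FLP.PSh.MapS (FLP.YD D) (FLP.YD D') m) :
    fromM H D D' (toM H D D' ψ) = ψ := by
  refine FLP.PSh.MapS.ext ?_
  funext C l s x
  show toMx (ofMx (ψ.app C s (toMx (ofMx x)))) = ψ.app C s x
  rw [toMx_ofMx, toMx_ofMx]

/-- The isomorphism of mapping spaces. -/
def mapIso : FLP.PSh.Map (FLP.YD D) (FLP.YD D') ≅ FL.PSh.Map (FL.YD D) (FL.YD D') where
  hom := { app := fun m => ↾ fun (ψ : FLP.PSh.MapS (FLP.YD D) (FLP.YD D') m.unop) =>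
             toM H D D' ψ
           naturality := fun _ _ _ => rfl }
  inv := { app := fun m => ↾ fun (ψ : FL.PSh.MapS (FL.YD D) (FL.YD D') m.unop) =>
             fromM H D D' ψ
           naturality := fun _ _ _ => rfl }
  hom_inv_id := NatTrans.ext (funext fun m => ConcreteCategory.hom_ext _ _
    fun (ψ : FLP.PSh.MapS (FLP.YD D) (FLP.YD D') m.unop) => fromM_toM H D D' ψ)
  inv_hom_id := NatTrans.ext (funext fun m => ConcreteCategory.hom_ext _ _
    fun (ψ : FL.PSh.MapS (FL.YD D) (FL.YD D') m.unop) => toM_fromM H D D' ψ)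

/-- The square. -/
lemma square : FLP.YDmap D D' ≫ (mapIso H D D').hom =
    (SSet.uliftFunctor.{1, 0}.mapIso (mpIso D D').symm).hom ≫ FL.YDmap D D' := by
  refine NatTrans.ext (funext fun m => ConcreteCategory.hom_ext _ _
    fun (φ : ULift (Mx D D' m.unop)) => ?_)
  refine FL.PSh.MapS.ext ?_
  funext K k s x
  have h : ofMx (Mx.comp (toMx x) (φ.down.res s)) = MpS.comp x (MpS.res s (ofMx φ.down)) := by
    rw [ofMx_comp, ofMx_toMx, ofMx_res]
  exact h

include H in
theorem yDmap_iff : HoEq (FLP.YDmap D D') ↔ HoEq (FL.YDmap D D') := by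
  constructor
  · exact Pool.Agent.Helper88.FL.hoEq_of_arrow_iso _ _ (square H D D')
  · refine Pool.Agent.Helper88.FL.hoEq_of_arrow_iso
      (SSet.uliftFunctor.{1, 0}.mapIso (mpIso D D').symm).symm (mapIso H D D').symm ?_
    rw [Iso.symm_hom, Iso.symm_hom, Iso.comp_inv_eq, Category.assoc, square,
      Iso.inv_hom_id_assoc]

end

end Pool.Agent.Helper45.FLPYD
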